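import Pool.Agent.Q267.FC.Lift

/-!
# Closed points of a model above points of a finitely generated subring
-/

set_option autoImplicit false

namespace Pool.Agent.Q267.TR

open Pool.Agent.Y162.HW

theorem lift_gen {C A : Type*} [CommRing C] [IsDomain C] [Algebra.FiniteType ℤ C] [CharZero C]
    [CommRing A] [IsDomain A] [Algebra.FiniteType ℤ A] (f : C →+* A)
    (hf : Function.Injective f) (a : A) (ha : a ≠ 0) (S : Set ℕ) (D : ℕ → C) (N₁ : ℕ)
    (hD : ∀ p ∈ S, N₁ ≤ p → p.Prime → ∃ P : Ideal C, P.IsPrime ∧ (p : C) ∈ P ∧ D p ∉ P) :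
    ∃ N : ℕ, ∀ p ∈ S, N ≤ p → p.Prime → ∃ M : Ideal A, M.IsMaximal ∧ (p : A) ∈ M ∧ a ∉ M ∧
      f (D p) ∉ M := by
  have hNoeth : IsNoetherianRing C := Algebra.FiniteType.isNoetherianRing ℤ C
  have hJ : IsJacobsonRing A := by
    have := jac_int
    exact isJacobsonRing_of_finiteType (A := ℤ)
  have hft : f.FiniteType := by
    have h1 : (f.comp (algebraMap ℤ C)).FiniteType := by
      have : (algebraMap ℤ A).FiniteType := RingHom.finiteType_algebraMap.mpr inferInstance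
      rwa [show algebraMap ℤ A = f.comp (algebraMap ℤ C) from RingHom.ext_int _ _] at this
    exact RingHom.FiniteType.of_comp_finiteType h1
  obtain ⟨c1, hc1, hlift⟩ := chev f hf hft a ha
  obtain ⟨N2, hN2⟩ := large_primes c1 hc1
  refine ⟨max N₁ N2, fun p hpS hp hpp => ?_⟩
  obtain ⟨P', hP', hpP', hdP'⟩ := hD p hpS ((le_max_left _ _).trans hp) hpp
  obtain ⟨P0, hP0, hPP'⟩ := Ideal.exists_minimalPrimes_le
    (show Ideal.span {(p : C)} ≤ P' by rw [Ideal.span_le, Set.singleton_subset_iff]; exact hpP')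
  have hPp : P0.IsPrime := hP0.1.1
  have hc0P := hN2 p ((le_max_right _ _).trans hp) hpp P0 hP0
  obtain ⟨Q, hQ, hQP, hcQ⟩ := hlift P0 hPp hc0P
  have hpQ : (p : A) ∈ Q := by
    have h1 : (p : C) ∈ Q.comap f := by
      rw [hQP]; exact hP0.1.2 (Ideal.subset_span rfl)
    rw [Ideal.mem_comap, map_natCast] at h1
    exact h1
  have hdQ : f (D p) ∉ Q := by
    intro h
    have h1 : D p ∈ Q.comap f := h
    rw [hQP] at h1
    exact hdP' (hPP' h1)
  have hprod : a * f (D p) ∉ Q := by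
    intro h
    rcases hQ.mem_or_mem h with h1 | h1
    · exact hcQ h1
    · exact hdQ h1
  have hjac : Q.jacobson = Q := isJacobsonRing_iff_prime_eq.mp hJ Q hQ
  rw [← hjac, Ideal.jacobson, Submodule.mem_sInf] at hprod
  push Not at hprod
  obtain ⟨M, ⟨hM0M, hM⟩, hMa⟩ := hprod
  exact ⟨M, hM, hM0M hpQ, fun h1 => hMa (Ideal.mul_mem_right _ M h1),
    fun h1 => hMa (Ideal.mul_mem_left M _ h1)⟩

end Pool.Agent.Q267.TR
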