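import Pool.Agent.Q267.TR.Core
import Pool.Agent.Q267.TR.Lift

/-!
# One degenerate point suffices, abstract form
-/

set_option autoImplicit false

open Finset MvPolynomial

namespace Pool.Agent.Q267.TR

open Pool.Agent.Q267.FC (exists_prime_not_mem)

universe u

variable {V : Type*}

section hwC

variable {R : Type*} [CommRing R] {I J : Type*} [Fintype J] [Fintype I] [DecidableEq I]

lemma hwJ_C_mul (p : ℕ) (w : I → V →₀ ℕ) (c : R) (F : J → MvPolynomial V R) :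
    (hwJ p w fun a => C c * F a).det =
      ((c ^ (p - 1)) ^ Fintype.card J) ^ Fintype.card I * (hwJ p w F).det := by
  have h1 : (hwJ p w fun a => C c * F a) = (c ^ (p - 1)) ^ Fintype.card J • hwJ p w F := by
    ext i j
    unfold hwJ
    rw [Matrix.smul_apply, Matrix.of_apply, Matrix.of_apply]
    simp only [mul_pow]
    rw [prod_mul_distrib, prod_const, card_univ, ← C_pow, ← C_pow, mul_left_comm, coeff_C_mul,
      smul_eq_mul]
  rw [h1, Matrix.det_smul]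

end hwC

section field

/-- The reduction modulo a prime ideal. -/
lemma exists_field {R : Type u} [CommRing R] (P : Ideal R) (hP : P.IsPrime) (p : ℕ)
    (hpp : p.Prime) (hpP : (p : R) ∈ P) :
    ∃ (L : Type u) (_ : Field L) (_ : CharP L p) (ψ : R →+* L), ∀ x, ψ x = 0 ↔ x ∈ P := by
  have hdom : IsDomain (R ⧸ P) := Ideal.Quotient.isDomain P
  let L := FractionRing (R ⧸ P)
  let ψ : R →+* L := (algebraMap (R ⧸ P) L).comp (Ideal.Quotient.mk P)
  have hψ : ∀ x, ψ x = 0 ↔ x ∈ P := by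
    intro x
    rw [← Ideal.Quotient.eq_zero_iff_mem]
    constructor
    · intro h
      exact IsFractionRing.injective (R ⧸ P) L (by rw [map_zero]; exact h)
    · intro h
      change algebraMap (R ⧸ P) L (Ideal.Quotient.mk P x) = 0
      rw [h, map_zero]
  have hK0 : ((p : ℕ) : L) = 0 := by
    have h2 : ψ (p : R) = 0 := (hψ _).2 hpP
    rwa [map_natCast] at h2
  have hchar : CharP L p := by
    obtain ⟨q, hq⟩ := CharP.exists L
    have h1 : q ∣ p := (CharP.cast_eq_zero_iff L q p).1 hK0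
    rcases (Nat.dvd_prime hpp).1 h1 with h2 | h2
    · subst h2
      exact absurd (CharP.char_ne_one L 1 rfl) (by simp)
    · rwa [← h2]
  exact ⟨L, inferInstance, hchar, ψ, hψ⟩

end field

section abs

variable {I J : Type*} [Fintype J] [Fintype I] [DecidableEq I]

/-- The determinant modulo `T`. -/
lemma exists_Y {B : Type*} [CommRing B] {S : J → Finset (V →₀ ℕ)} {g : J → (V →₀ ℕ) → ℕ} {N : ℕ}
    {w : I → V →₀ ℕ} (Z : Cells S g N w) (hN : 0 < N) (hw' : Function.Injective w)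
    (T : B) (b : J → (V →₀ ℕ) → B) (p : ℕ) (hpp : p.Prime) (hpN : p ≡ 1 [MOD N]) :
    ∃ (e : ℕ) (y : B),
      (hwJ p w fun a => ∑ v ∈ S a, monomial v (b a v * T ^ g a v)).det = T ^ e * y ∧
      ∀ {L : Type u} [Field L] [CharP L p] (ψ : B →+* L), ψ T = 0 →
        (∀ a, ∀ v ∈ S a, ψ (b a v) ≠ 0) → ψ y ≠ 0 := by
  classical
  obtain ⟨q, hq⟩ := (Nat.modEq_iff_dvd' hpp.one_le).1 hpN.symm
  have hpq : p = N * q + 1 := by
    have := hpp.one_le
    omega
  obtain ⟨⟨Y, hY⟩, h2⟩ := det_hwJ Z hN hw' p q hpq b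
  have h3 : Y.coeff 0 = ∏ i, ∏ a, (((Nat.multinomial (S a) (fun v => q * Z.n i a v) : ℕ) : B) *
          ∏ v ∈ S a, b a v ^ (q * Z.n i a v)) := by
    rw [← h2, hY]
    have h3 := Polynomial.coeff_X_pow_mul Y (q * ∑ i, Z.G i) 0
    rw [zero_add] at h3
    exact h3.symm
  have h4 : (fun a => ∑ v ∈ S a, monomial v (b a v * T ^ g a v)) =
      fun a => map (Polynomial.evalRingHom T) (FF (S a) (b a) (g a)) := by
    funext a
    unfold FF
    rw [map_sum]
    refine sum_congr rfl fun v _ => ?_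
    rw [map_monomial]
    congr 1
    rw [Polynomial.coe_evalRingHom]
    simp
  refine ⟨q * ∑ i, Z.G i, Y.eval T, ?_, ?_⟩
  · rw [h4, det_hwJ_map, hY, map_mul, map_pow, Polynomial.coe_evalRingHom, Polynomial.eval_X]
  · intro L _ _ ψ hψT hψb h0
    have hpf : Fact p.Prime := ⟨hpp⟩
    obtain ⟨Y', hY'⟩ := Polynomial.X_dvd_sub_C (p := Y)
    have h5 : Y = Polynomial.C (Y.coeff 0) + Polynomial.X * Y' := by
      rw [← hY']
      ring
    have h6 : Y.eval T = Y.coeff 0 + T * Y'.eval T := by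
      conv_lhs => rw [h5]
      rw [Polynomial.eval_add, Polynomial.eval_C, Polynomial.eval_mul, Polynomial.eval_X]
    rw [h6, map_add, map_mul, hψT, zero_mul, add_zero, h3, map_prod, prod_eq_zero_iff] at h0
    obtain ⟨i, _, h0⟩ := h0
    rw [map_prod, prod_eq_zero_iff] at h0
    obtain ⟨a, _, h7⟩ := h0
    rw [map_mul, map_natCast, map_prod, mul_eq_zero] at h7
    rcases h7 with h7 | h7
    · refine multinomial_ne (k := L) (p := p) (S a) _ ?_ h7
      rw [← mul_sum, Z.sum, hpq, Nat.add_sub_cancel, mul_comm]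
    · rw [prod_eq_zero_iff] at h7
      obtain ⟨v, hv, h8⟩ := h7
      rw [map_pow] at h8
      exact hψb a v hv (eq_zero_of_pow_eq_zero h8)

theorem abs {A' B C' : Type*} {R₀ : Type u} [CommRing A'] [CommRing B] [IsDomain B] [CharZero B]
    [Algebra.FiniteType ℤ B] [CommRing C'] [IsDomain C'] [Algebra.FiniteType ℤ C']
    [CommRing R₀] [IsDomain R₀] [CharZero R₀] [Algebra.FiniteType ℤ R₀]
    {S : J → Finset (V →₀ ℕ)} {g : J → (V →₀ ℕ) → ℕ} {N : ℕ}
    {w : I → V →₀ ℕ} (Z : Cells S g N w) (hN : 0 < N) (hw' : Function.Injective w)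
    (T : B) (b : J → (V →₀ ℕ) → B) (φ : B →+* R₀) (hφT : φ T = 0)
    (hφb : ∀ a, ∀ v ∈ S a, φ (b a v) ≠ 0)
    (ι : B →+* C') (hι : Function.Injective ι) (hT : IsUnit (ι T)) (θ : A' →+* C')
    (f : J → MvPolynomial V A') (H : ℕ)
    (hcomp : ∀ a, map ι (∑ v ∈ S a, monomial v (b a v * T ^ g a v)) =
      C (ι T ^ H) * map θ (f a)) :
    ∃ n₀ : ℕ, ∀ p : ℕ, n₀ ≤ p → p.Prime → p ≡ 1 [MOD N] →
      ∃ P : Ideal A', P.IsPrime ∧ (p : A') ∈ P ∧ (hwJ p w f).det ∉ P := by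
  classical
  have hD : ∀ p : ℕ, ∃ y : B, p.Prime → p ≡ 1 [MOD N] → ∃ e : ℕ,
      (hwJ p w fun a => ∑ v ∈ S a, monomial v (b a v * T ^ g a v)).det = T ^ e * y ∧
      ∀ {L : Type u} [Field L] [CharP L p] (ψ : B →+* L), ψ T = 0 →
        (∀ a, ∀ v ∈ S a, ψ (b a v) ≠ 0) → ψ y ≠ 0 := by
    intro p
    by_cases h : p.Prime ∧ p ≡ 1 [MOD N]
    · obtain ⟨e, y, h1, h2⟩ := exists_Y Z hN hw' T b p h.1 h.2
      exact ⟨y, fun _ _ => ⟨e, h1, h2⟩⟩
    · exact ⟨0, fun h1 h2 => absurd ⟨h1, h2⟩ h⟩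
  choose y hy using hD
  obtain ⟨N₁, hN₁⟩ := exists_prime_not_mem (R := R₀) (∏ a, ∏ v ∈ S a, φ (b a v))
    (prod_ne_zero_iff.2 fun a _ => prod_ne_zero_iff.2 (hφb a))
  obtain ⟨N₂, hN₂⟩ := lift_gen ι hι 1 one_ne_zero {p | p ≡ 1 [MOD N]} y N₁ (by
      intro p hpN hp hpp
      obtain ⟨P, hP, hpP, hbP⟩ := hN₁ p hp hpp
      obtain ⟨L, hL1, hL2, ψ, hψ⟩ := exists_field P hP p hpp hpP
      have hPφ : (P.comap φ).IsPrime := Ideal.IsPrime.comap φ
      refine ⟨P.comap φ, hPφ, ?_, ?_⟩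
      · rw [Ideal.mem_comap, map_natCast]
        exact hpP
      intro hmem
      rw [Ideal.mem_comap, ← hψ] at hmem
      obtain ⟨e, _, h2⟩ := hy p hpp hpN
      refine h2 (ψ.comp φ) ?_ ?_ hmem
      · rw [RingHom.comp_apply, hφT, map_zero]
      · intro a v hv h
        rw [RingHom.comp_apply, hψ] at h
        exact hbP (P.mem_of_dvd (Finset.dvd_prod_of_mem (fun a => ∏ v ∈ S a, φ (b a v))
          (mem_univ a)) (P.mem_of_dvd (Finset.dvd_prod_of_mem (fun v => φ (b a v)) hv) h)))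
  refine ⟨N₂, fun p hp hpp hpN => ?_⟩
  obtain ⟨M, hM, hpM, _, hYM⟩ := hN₂ p hpN hp hpp
  have hMp : (M.comap θ).IsPrime := Ideal.IsPrime.comap θ
  refine ⟨M.comap θ, hMp, ?_, ?_⟩
  · rw [Ideal.mem_comap, map_natCast]
    exact hpM
  intro hmem
  rw [Ideal.mem_comap, ← det_hwJ_map] at hmem
  have h1 : (hwJ p w fun a => map ι (∑ v ∈ S a, monomial v (b a v * T ^ g a v))).det ∈ M := by
    simp only [hcomp]
    rw [hwJ_C_mul]
    exact M.mul_mem_left _ hmem
  obtain ⟨e, h2, _⟩ := hy p hpp hpN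
  rw [det_hwJ_map, h2, map_mul, map_pow] at h1
  rcases hM.isPrime.mem_or_mem h1 with h2 | h2
  · exact hM.ne_top (Ideal.eq_top_of_isUnit_mem _ (hM.isPrime.mem_of_pow_mem _ h2) hT)
  · exact hYM h2

end abs

end Pool.Agent.Q267.TR
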