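import Pool.Agent.Q267.OD.Diag

/-!
# The lowest coefficient of a Hasse-Witt determinant

`F_j = ∑ b_{j,v} τ ^ (g j v) x ^ v`, the exponents `w_i` are in the interiors of the cells of a mixed
subdivision defined by the heights `g`, the cells are simplices of the Cayley configuration.
-/

set_option autoImplicit false

open Finset MvPolynomial

namespace Pool.Agent.Q267.TR

variable {V : Type*}

section expand

variable {R : Type*} [CommRing R]

/-- The polynomial `∑ b_v τ ^ (g v) x ^ v`. -/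
noncomputable def FF (S : Finset (V →₀ ℕ)) (b : (V →₀ ℕ) → R) (g : (V →₀ ℕ) → ℕ) :
    MvPolynomial V (Polynomial R) :=
  ∑ v ∈ S, monomial v (Polynomial.C (b v) * Polynomial.X ^ g v)

open Classical in
lemma FF_pow (S : Finset (V →₀ ℕ)) (b : (V →₀ ℕ) → R) (g : (V →₀ ℕ) → ℕ) (n : ℕ) :
    FF S b g ^ n = ∑ κ ∈ piAntidiag S n, monomial (∑ v ∈ S, κ v • v)
      (Polynomial.C (((Nat.multinomial S κ : ℕ) : R) * ∏ v ∈ S, b v ^ κ v) *
        Polynomial.X ^ (∑ v ∈ S, κ v * g v)) := by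
  unfold FF
  rw [sum_pow_eq_sum_piAntidiag]
  refine sum_congr rfl fun κ _ => ?_
  simp only [monomial_pow]
  rw [Pool.Agent.Q267.OD.prod_monomial, ← map_natCast C, C_mul_monomial]
  congr 1
  rw [map_mul, map_natCast, map_prod, ← prod_pow_eq_pow_sum, mul_assoc, ← prod_mul_distrib]
  congr 1
  refine prod_congr rfl fun v _ => ?_
  rw [mul_pow, map_pow, ← pow_mul, mul_comm (g v)]

/-- Products of powers. -/
lemma FF_prod {J : Type*} [Fintype J] (S : J → Finset (V →₀ ℕ)) (b : J → (V →₀ ℕ) → R)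
    (g : J → (V →₀ ℕ) → ℕ) (n : ℕ) : by
      classical
      exact ∏ j, FF (S j) (b j) (g j) ^ n = ∑ κ ∈ Fintype.piFinset fun j => piAntidiag (S j) n,
        monomial (∑ j, ∑ v ∈ S j, κ j v • v)
          (Polynomial.C (∏ j, (((Nat.multinomial (S j) (κ j) : ℕ) : R) *
            ∏ v ∈ S j, b j v ^ κ j v)) * Polynomial.X ^ (∑ j, ∑ v ∈ S j, κ j v * g j v)) := by
  classical
  simp only [FF_pow]
  rw [prod_univ_sum]
  refine sum_congr rfl fun κ _ => ?_
  rw [Pool.Agent.Q267.OD.prod_monomial, prod_mul_distrib, prod_pow_eq_pow_sum, map_prod]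

lemma FF_prod_coeff {J : Type*} [Fintype J] (S : J → Finset (V →₀ ℕ)) (b : J → (V →₀ ℕ) → R)
    (g : J → (V →₀ ℕ) → ℕ) (n : ℕ) (x : V →₀ ℕ) (e : ℕ) : by
      classical
      exact (coeff x (∏ j, FF (S j) (b j) (g j) ^ n)).coeff e =
      ∑ κ ∈ Fintype.piFinset fun j => piAntidiag (S j) n,
      if ∑ j, ∑ v ∈ S j, κ j v • v = x ∧ ∑ j, ∑ v ∈ S j, κ j v * g j v = e then
        ∏ j, (((Nat.multinomial (S j) (κ j) : ℕ) : R) * ∏ v ∈ S j, b j v ^ κ j v) else 0 := by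
  classical
  rw [FF_prod, coeff_sum, Polynomial.finsetSum_coeff]
  refine sum_congr rfl fun κ _ => ?_
  rw [coeff_monomial]
  by_cases h : ∑ j, ∑ v ∈ S j, κ j v • v = x
  · rw [if_pos h, Polynomial.coeff_C_mul_X_pow]
    by_cases h3 : ∑ j, ∑ v ∈ S j, κ j v * g j v = e
    · rw [if_pos h3.symm, if_pos ⟨h, h3⟩]
    · rw [if_neg (Ne.symm h3), if_neg fun h4 => h3 h4.2]
  · rw [if_neg h, if_neg fun h4 => h h4.1, Polynomial.coeff_zero]

end expand

section det

variable {R : Type*} [CommRing R] {I : Type*} [Fintype I] [DecidableEq I]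

lemma coeff_prod (P : I → Polynomial R) (d : ℕ) :
    (∏ i, P i).coeff d = ∑ l ∈ finsuppAntidiag (univ : Finset I) d, ∏ i, (P i).coeff (l i) := by
  have h := PowerSeries.coeff_prod (fun i => (P i : PowerSeries R)) d univ
  simp only [Polynomial.coeff_coe] at h
  rw [← h, ← Polynomial.coeff_coe]
  congr 1
  exact map_prod (Polynomial.coeToPowerSeries.ringHom (R := R)) P univ

/-- The lowest coefficient of a determinant. -/
lemma det_low (M : Matrix I I (Polynomial R)) (G : I → ℕ) (p N q : ℕ) (hN : 0 < N)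
    (hpq : p = N * q + 1)
    (h : ∀ i j e, (M i j).coeff e ≠ 0 → p * G i ≤ N * e + G j ∧ (p * G i = N * e + G j → i = j)) :
    Polynomial.X ^ (q * ∑ i, G i) ∣ M.det ∧
      M.det.coeff (q * ∑ i, G i) = ∏ i, (M i i).coeff (q * G i) := by
  have key : ∀ (σ : Equiv.Perm I) (l : I →₀ ℕ), (∏ i, (M (σ i) i).coeff (l i)) ≠ 0 →
      q * ∑ i, G i ≤ ∑ i, l i ∧ (q * ∑ i, G i = ∑ i, l i → σ = 1 ∧ ∀ i, l i = q * G i) := by
    intro σ l hl
    have h1 : ∀ i, p * G (σ i) ≤ N * l i + G i ∧ (p * G (σ i) = N * l i + G i → σ i = i) := by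
      intro i
      refine h _ _ _ fun h0 => hl ?_
      exact prod_eq_zero (mem_univ i) h0
    have h2 : ∑ i, p * G (σ i) = p * ∑ i, G i := by
      rw [Equiv.sum_comp σ fun i => p * G i, mul_sum]
    have h3 : ∑ i, (N * l i + G i) = N * ∑ i, l i + ∑ i, G i := by
      rw [sum_add_distrib, mul_sum]
    have h4 : p * ∑ i, G i = N * (q * ∑ i, G i) + ∑ i, G i := by
      rw [hpq]
      ring
    have h5 := sum_le_sum fun i (_ : i ∈ (univ : Finset I)) => (h1 i).1
    rw [h2, h3, h4] at h5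
    have h6 : N * (q * ∑ i, G i) ≤ N * ∑ i, l i := by omega
    refine ⟨Nat.le_of_mul_le_mul_left h6 hN, fun heq => ?_⟩
    have h7 : ∑ i, p * G (σ i) = ∑ i, (N * l i + G i) := by rw [h2, h3, h4, heq]
    have h8 := (Finset.sum_eq_sum_iff_of_le fun i _ => (h1 i).1).mp h7
    have h9 : ∀ i, σ i = i := fun i => (h1 i).2 (h8 i (mem_univ i))
    refine ⟨Equiv.ext h9, fun i => ?_⟩
    have h10 := h8 i (mem_univ i)
    rw [h9 i, hpq] at h10
    refine Nat.eq_of_mul_eq_mul_left hN ?_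
    have h11 : (N * q + 1) * G i = N * (q * G i) + G i := by ring
    omega
  have hcoeff : ∀ d, M.det.coeff d = ∑ σ : Equiv.Perm I, Equiv.Perm.sign σ •
      ∑ l ∈ finsuppAntidiag (univ : Finset I) d, ∏ i, (M (σ i) i).coeff (l i) := by
    intro d
    rw [Matrix.det_apply, Polynomial.finsetSum_coeff]
    refine sum_congr rfl fun σ _ => ?_
    rw [Polynomial.coeff_smul, coeff_prod]
  constructor
  · rw [Polynomial.X_pow_dvd_iff]
    intro d hd
    rw [hcoeff]
    refine sum_eq_zero fun σ _ => ?_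
    rw [sum_eq_zero, smul_zero]
    intro l hl
    by_contra h0
    have h1 := (key σ l h0).1
    have h2 : ∑ i, l i = d := (mem_finsuppAntidiag.mp hl).1
    omega
  · rw [hcoeff, sum_eq_single (1 : Equiv.Perm I)]
    · rw [Equiv.Perm.sign_one, one_smul]
      have hmem : Finsupp.equivFunOnFinite.symm (fun i => q * G i) ∈
          finsuppAntidiag (univ : Finset I) (q * ∑ i, G i) := by
        rw [mem_finsuppAntidiag]
        refine ⟨?_, subset_univ _⟩
        rw [mul_sum]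
        rfl
      rw [sum_eq_single (Finsupp.equivFunOnFinite.symm fun i => q * G i)]
      · rfl
      · intro l hl hne
        by_contra h0
        apply hne
        ext i
        exact ((key 1 l h0).2 (mem_finsuppAntidiag.mp hl).1.symm).2 i
      · intro h0
        exact absurd hmem h0
    · intro σ _ hσ
      rw [sum_eq_zero, smul_zero]
      intro l hl
      by_contra h0
      exact hσ ((key σ l h0).2 (mem_finsuppAntidiag.mp hl).1.symm).1
    · intro h0
      exact absurd (mem_univ _) h0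

end det

section cells

variable {I J : Type*} [Fintype J]

/-- The exponents `w i` are in the interiors of the cells with the vertices `(j, v)`,
`n i j v ≠ 0`. -/
structure Cells (S : J → Finset (V →₀ ℕ)) (g : J → (V →₀ ℕ) → ℕ) (N : ℕ) (w : I → V →₀ ℕ) where
  /-- the constant terms -/
  l₀ : I → J → ℚ
  /-- the linear functionals -/
  l : I → ((V →₀ ℕ) →+ ℚ)
  /-- the barycentric coordinates -/
  n : I → J → (V →₀ ℕ) → ℕ
  le : ∀ i j, ∀ v ∈ S j, l₀ i j + l i v ≤ g j v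
  eq : ∀ i j, ∀ v ∈ S j, n i j v ≠ 0 ↔ l₀ i j + l i v = g j v
  sum : ∀ i j, ∑ v ∈ S j, n i j v = N
  bary : ∀ i, ∑ j, ∑ v ∈ S j, n i j v • v = N • w i
  indep : ∀ i (c : J → (V →₀ ℕ) → ℤ), (∀ j, ∀ v ∈ S j, n i j v = 0 → c j v = 0) →
    (∀ j, ∑ v ∈ S j, c j v = 0) → (∀ x, ∑ j, ∑ v ∈ S j, c j v * (v x : ℤ) = 0) →
    ∀ j, ∀ v ∈ S j, c j v = 0

variable {S : J → Finset (V →₀ ℕ)} {g : J → (V →₀ ℕ) → ℕ} {N : ℕ} {w : I → V →₀ ℕ}

/-- `N` times the height of the lower hull at `w i`. -/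
def Cells.G (Z : Cells S g N w) (i : I) : ℕ := ∑ j, ∑ v ∈ S j, Z.n i j v * g j v

lemma Cells.key (Z : Cells S g N w) (hN : 0 < N) (hw : Function.Injective w) (p q : ℕ)
    (hpq : p = N * q + 1) (i j : I) (κ : J → (V →₀ ℕ) → ℕ)
    (hκ : ∀ a, ∑ v ∈ S a, κ a v = p - 1)
    (hv : w j + ∑ a, ∑ v ∈ S a, κ a v • v = p • w i) :
    p * Z.G i ≤ N * (∑ a, ∑ v ∈ S a, κ a v * g a v) + Z.G j ∧
      (p * Z.G i = N * (∑ a, ∑ v ∈ S a, κ a v * g a v) + Z.G j →
        i = j ∧ ∀ a, ∀ v ∈ S a, κ a v = q * Z.n i a v) := by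
  classical
  -- the functional of `i` at a combination
  have hL : ∀ (c : J → (V →₀ ℕ) → ℕ) (C₀ : ℕ), (∀ a, ∑ v ∈ S a, c a v = C₀) →
      ∑ a, ∑ v ∈ S a, (c a v : ℚ) * (Z.l₀ i a + Z.l i v) =
      (∑ a, Z.l₀ i a) * C₀ + Z.l i (∑ a, ∑ v ∈ S a, c a v • v) := by
    intro c C₀ hC
    rw [map_sum, sum_mul, ← sum_add_distrib]
    refine sum_congr rfl fun a _ => ?_
    rw [map_sum, ← hC a, Nat.cast_sum, mul_sum, ← sum_add_distrib]
    refine sum_congr rfl fun v _ => ?_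
    rw [map_nsmul, nsmul_eq_mul]
    ring
  obtain ⟨l₁, hl₁⟩ : ∃ l₁, l₁ = ∑ a, Z.l₀ i a := ⟨_, rfl⟩
  rw [← hl₁] at hL
  have hLi : (Z.G i : ℚ) = l₁ * N + N * Z.l i (w i) := by
    have h1 := hL (Z.n i) N (Z.sum i)
    rw [Z.bary, map_nsmul, nsmul_eq_mul] at h1
    rw [← h1]
    unfold Cells.G
    push_cast
    refine sum_congr rfl fun a _ => sum_congr rfl fun v hv => ?_
    by_cases h0 : Z.n i a v = 0
    · rw [h0]
      simp
    · rw [(Z.eq i a v hv).1 h0]
  have hLj := hL (Z.n j) N (Z.sum j)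
  rw [Z.bary, map_nsmul, nsmul_eq_mul] at hLj
  have hLκ := hL κ (p - 1) hκ
  have hp1 : ((p - 1 : ℕ) : ℚ) = N * q := by
    rw [hpq, Nat.add_sub_cancel]
    push_cast
    ring
  rw [hp1] at hLκ
  have hlv : Z.l i (w j) + Z.l i (∑ a, ∑ v ∈ S a, κ a v • v) = p * Z.l i (w i) := by
    rw [← map_add, hv, map_nsmul, nsmul_eq_mul]
  have hgj : (Z.G j : ℚ) = ∑ a, ∑ v ∈ S a, (Z.n j a v : ℚ) * g a v := by
    unfold Cells.G
    push_cast
    rfl
  have h1 : ∀ a, ∀ v ∈ S a, (κ a v : ℚ) * (Z.l₀ i a + Z.l i v) ≤ κ a v * g a v :=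
    fun a v hv => mul_le_mul_of_nonneg_left (Z.le i a v hv) (Nat.cast_nonneg _)
  have h2 : ∀ a, ∀ v ∈ S a, (Z.n j a v : ℚ) * (Z.l₀ i a + Z.l i v) ≤ Z.n j a v * g a v :=
    fun a v hv => mul_le_mul_of_nonneg_left (Z.le i a v hv) (Nat.cast_nonneg _)
  have h1a : ∀ a ∈ (univ : Finset J), ∑ v ∈ S a, (κ a v : ℚ) * (Z.l₀ i a + Z.l i v) ≤
      ∑ v ∈ S a, (κ a v : ℚ) * g a v := fun a _ => sum_le_sum (h1 a)
  have h2a : ∀ a ∈ (univ : Finset J), ∑ v ∈ S a, (Z.n j a v : ℚ) * (Z.l₀ i a + Z.l i v) ≤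
      ∑ v ∈ S a, (Z.n j a v : ℚ) * g a v := fun a _ => sum_le_sum (h2 a)
  have h1' := sum_le_sum h1a
  have h2' := sum_le_sum h2a
  have hpQ : (p : ℚ) = N * q + 1 := by
    rw [hpq]
    push_cast
    ring
  have hNQ : (0 : ℚ) < N := by exact_mod_cast hN
  have hmain : (p : ℚ) * Z.G i = N * ∑ a, ∑ v ∈ S a, (κ a v : ℚ) * (Z.l₀ i a + Z.l i v) +
      ∑ a, ∑ v ∈ S a, (Z.n j a v : ℚ) * (Z.l₀ i a + Z.l i v) := by
    rw [hLκ, hLj, hLi]
    have h3 : Z.l i (∑ a, ∑ v ∈ S a, κ a v • v) = p * Z.l i (w i) - Z.l i (w j) := by linarith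
    rw [h3, hpQ]
    ring
  have hcast : ((N * (∑ a, ∑ v ∈ S a, κ a v * g a v) + Z.G j : ℕ) : ℚ) =
      N * ∑ a, ∑ v ∈ S a, (κ a v : ℚ) * g a v +
        ∑ a, ∑ v ∈ S a, (Z.n j a v : ℚ) * g a v := by
    push_cast
    rw [hgj]
  constructor
  · have h3 : ((p * Z.G i : ℕ) : ℚ) ≤
        ((N * (∑ a, ∑ v ∈ S a, κ a v * g a v) + Z.G j : ℕ) : ℚ) := by
      rw [hcast, Nat.cast_mul, hmain]
      have := mul_le_mul_of_nonneg_left h1' hNQ.le
      linarith
    exact_mod_cast h3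
  intro heq
  have heq' : ((p * Z.G i : ℕ) : ℚ) =
      ((N * (∑ a, ∑ v ∈ S a, κ a v * g a v) + Z.G j : ℕ) : ℚ) := by rw [heq]
  rw [hcast, Nat.cast_mul, hmain] at heq'
  have h3 : N * ∑ a, ∑ v ∈ S a, (κ a v : ℚ) * (Z.l₀ i a + Z.l i v) ≤
      N * ∑ a, ∑ v ∈ S a, (κ a v : ℚ) * g a v := mul_le_mul_of_nonneg_left h1' hNQ.le
  have h4 : ∑ a, ∑ v ∈ S a, (κ a v : ℚ) * (Z.l₀ i a + Z.l i v) =
      ∑ a, ∑ v ∈ S a, (κ a v : ℚ) * g a v := mul_left_cancel₀ hNQ.ne' (by linarith)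
  have h5 : ∑ a, ∑ v ∈ S a, (Z.n j a v : ℚ) * (Z.l₀ i a + Z.l i v) =
      ∑ a, ∑ v ∈ S a, (Z.n j a v : ℚ) * g a v := by linarith
  have h6 : ∀ a, ∀ v ∈ S a, κ a v ≠ 0 → Z.n i a v ≠ 0 := by
    intro a v hv h0
    rw [Z.eq i a v hv]
    have h7 := (sum_eq_sum_iff_of_le (h1 a)).mp
      ((sum_eq_sum_iff_of_le h1a).mp h4 a (mem_univ a)) v hv
    exact mul_left_cancel₀ (Nat.cast_ne_zero.mpr h0) h7
  have h7 : ∀ a, ∀ v ∈ S a, Z.n j a v ≠ 0 → Z.n i a v ≠ 0 := by
    intro a v hv h0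
    rw [Z.eq i a v hv]
    have h7 := (sum_eq_sum_iff_of_le (h2 a)).mp
      ((sum_eq_sum_iff_of_le h2a).mp h5 a (mem_univ a)) v hv
    exact mul_left_cancel₀ (Nat.cast_ne_zero.mpr h0) h7
  -- affine independence
  have hzero := Z.indep i (fun a v => (N : ℤ) * κ a v + Z.n j a v - p * Z.n i a v) (by
    intro a v hv h0
    have h8 : κ a v = 0 := by
      by_contra h8
      exact h6 a v hv h8 h0
    have h9 : Z.n j a v = 0 := by
      by_contra h9
      exact h7 a v hv h9 h0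
    rw [h0, h8, h9]
    simp) (by
    intro a
    rw [sum_sub_distrib, sum_add_distrib, ← mul_sum, ← mul_sum, ← Nat.cast_sum, ← Nat.cast_sum,
      ← Nat.cast_sum, hκ, Z.sum, Z.sum, hpq, Nat.add_sub_cancel]
    push_cast
    ring) (by
    intro x
    have e1 := DFunLike.congr_fun hv x
    have e2 := DFunLike.congr_fun (Z.bary i) x
    have e3 := DFunLike.congr_fun (Z.bary j) x
    simp only [Finsupp.add_apply, Finsupp.finsetSum_apply, Finsupp.smul_apply, smul_eq_mul]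
      at e1 e2 e3
    zify at e1 e2 e3
    have e4 : ∑ a, ∑ v ∈ S a, ((N : ℤ) * κ a v + Z.n j a v - p * Z.n i a v) * (v x : ℤ) =
        N * ∑ a, ∑ v ∈ S a, (κ a v : ℤ) * (v x : ℤ) +
          ∑ a, ∑ v ∈ S a, (Z.n j a v : ℤ) * (v x : ℤ) -
          p * ∑ a, ∑ v ∈ S a, (Z.n i a v : ℤ) * (v x : ℤ) := by
      simp only [mul_sum]
      simp only [← sum_add_distrib, ← sum_sub_distrib]
      exact sum_congr rfl fun a _ => sum_congr rfl fun v _ => by ring
    rw [e4, e2, e3]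
    linear_combination (N : ℤ) * e1)
  have hpZ : (p : ℤ) = N * q + 1 := by
    rw [hpq]
    push_cast
    ring
  have hle' : ∀ a, ∀ v ∈ S a, Z.n j a v ≤ N := fun a v hv =>
    (single_le_sum (f := Z.n j a) (fun _ _ => Nat.zero_le _) hv).trans (Z.sum j a).le
  have hge : ∀ a, ∀ v ∈ S a, Z.n j a v ≤ Z.n i a v := by
    intro a v hv
    have h8 := hzero a v hv
    by_contra h9
    push Not at h9
    have h10 : (N : ℤ) ∣ (Z.n j a v : ℤ) - Z.n i a v := by
      refine ⟨q * Z.n i a v - κ a v, ?_⟩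
      rw [hpZ] at h8
      linear_combination h8
    have h11 : (0 : ℤ) < (Z.n j a v : ℤ) - Z.n i a v := by
      have : (Z.n i a v : ℤ) < Z.n j a v := by exact_mod_cast h9
      linarith
    have h12 := Int.le_of_dvd h11 h10
    have h13 : (Z.n j a v : ℤ) ≤ N := by exact_mod_cast hle' a v hv
    have h14 : Z.n i a v = 0 := by
      have : (Z.n i a v : ℤ) ≤ 0 := by linarith
      exact_mod_cast le_antisymm this (Int.natCast_nonneg _)
    exact h7 a v hv (by omega) h14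
  have heqn : ∀ a, ∀ v ∈ S a, Z.n j a v = Z.n i a v := fun a =>
    (sum_eq_sum_iff_of_le (hge a)).mp (by rw [Z.sum, Z.sum])
  have hij : i = j := by
    apply hw
    have h8 : N • w i = N • w j := by
      rw [← Z.bary, ← Z.bary]
      exact sum_congr rfl fun a _ => sum_congr rfl fun v hv => by rw [heqn a v hv]
    ext x
    have h9 := DFunLike.congr_fun h8 x
    rw [Finsupp.smul_apply, Finsupp.smul_apply, smul_eq_mul, smul_eq_mul] at h9
    exact Nat.eq_of_mul_eq_mul_left hN h9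
  refine ⟨hij, fun a v hv => ?_⟩
  have h8 := hzero a v hv
  simp only [heqn a v hv, hpZ] at h8
  have h9 : (N : ℤ) * κ a v = N * (q * Z.n i a v) := by linear_combination h8
  have h10 := mul_left_cancel₀ (by exact_mod_cast hN.ne' : (N : ℤ) ≠ 0) h9
  exact_mod_cast h10

end cells

section main

variable {R : Type*} [CommRing R] {I J : Type*} [Fintype J]

/-- The matrix of the coefficients of `x ^ (p w_i)` in `x ^ (w_j) ∏ F_a ^ (p - 1)`. -/
noncomputable def hwJ (p : ℕ) (w : I → V →₀ ℕ) (F : J → MvPolynomial V R) : Matrix I I R :=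
  Matrix.of fun i j => coeff (p • w i) (monomial (w j) 1 * ∏ a, F a ^ (p - 1))

lemma hwJ_map {R' : Type*} [CommRing R'] (φ : R →+* R') (p : ℕ) (w : I → V →₀ ℕ)
    (F : J → MvPolynomial V R) : hwJ p w (fun a => map φ (F a)) = (hwJ p w F).map φ := by
  ext i j
  simp only [hwJ, Matrix.of_apply, Matrix.map_apply]
  rw [← coeff_map, map_mul, map_prod, map_monomial, RingHom.map_one]
  simp only [map_pow]

variable [Fintype I] [DecidableEq I]

lemma det_hwJ_map {R' : Type*} [CommRing R'] (φ : R →+* R') (p : ℕ) (w : I → V →₀ ℕ)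
    (F : J → MvPolynomial V R) : (hwJ p w fun a => map φ (F a)).det = φ (hwJ p w F).det := by
  rw [hwJ_map, RingHom.map_det]
  rfl

variable {S : J → Finset (V →₀ ℕ)} {g : J → (V →₀ ℕ) → ℕ} {N : ℕ} {w : I → V →₀ ℕ}

omit [Fintype I] [DecidableEq I] in
lemma hwJ_coeff (b : J → (V →₀ ℕ) → R) (p : ℕ) (i j : I) (e : ℕ) :
    (hwJ p w (fun a => FF (S a) (b a) (g a)) i j).coeff e = by
      classical
      exact ∑ κ ∈ Fintype.piFinset fun a => piAntidiag (S a) (p - 1),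
      if w j + ∑ a, ∑ v ∈ S a, κ a v • v = p • w i ∧ ∑ a, ∑ v ∈ S a, κ a v * g a v = e then
        ∏ a, (((Nat.multinomial (S a) (κ a) : ℕ) : R) * ∏ v ∈ S a, b a v ^ κ a v) else 0 := by
  classical
  unfold hwJ
  rw [Matrix.of_apply, coeff_monomial_mul']
  by_cases hle : w j ≤ p • w i
  · rw [if_pos hle, one_mul, FF_prod_coeff]
    refine sum_congr rfl fun κ _ => ?_
    have h1 : (∑ a, ∑ v ∈ S a, κ a v • v = p • w i - w j) ↔
        (w j + ∑ a, ∑ v ∈ S a, κ a v • v = p • w i) := by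
      constructor
      · intro h
        rw [h, add_comm]
        exact tsub_add_cancel_of_le hle
      · intro h
        rw [← h, add_tsub_cancel_left]
    simp only [h1]
  · rw [if_neg hle, Polynomial.coeff_zero]
    symm
    refine sum_eq_zero fun κ _ => if_neg fun h => hle ?_
    rw [← h.1]
    exact le_self_add

/-- **The lowest coefficient of the Hasse-Witt determinant.** -/
theorem det_hwJ (Z : Cells S g N w) (hN : 0 < N) (hw' : Function.Injective w) (p q : ℕ)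
    (hpq : p = N * q + 1) (b : J → (V →₀ ℕ) → R) :
    Polynomial.X ^ (q * ∑ i, Z.G i) ∣ (hwJ p w fun a => FF (S a) (b a) (g a)).det ∧
      (hwJ p w fun a => FF (S a) (b a) (g a)).det.coeff (q * ∑ i, Z.G i) =
        ∏ i, ∏ a, (((Nat.multinomial (S a) (fun v => q * Z.n i a v) : ℕ) : R) *
          ∏ v ∈ S a, b a v ^ (q * Z.n i a v)) := by
  classical
  obtain ⟨h1, h2⟩ := det_low (hwJ p w fun a => FF (S a) (b a) (g a)) Z.G p N q hN hpq (by
    intro i j e h
    rw [hwJ_coeff] at h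
    obtain ⟨κ, hκ, h3⟩ := exists_ne_zero_of_sum_ne_zero h
    obtain ⟨h5, h6⟩ : w j + ∑ a, ∑ v ∈ S a, κ a v • v = p • w i ∧
        ∑ a, ∑ v ∈ S a, κ a v * g a v = e := by
      by_contra h5
      exact h3 (if_neg h5)
    obtain ⟨h7, h8⟩ := Z.key hN hw' p q hpq i j κ
      (fun a => (mem_piAntidiag.mp (Fintype.mem_piFinset.mp hκ a)).1) h5
    rw [h6] at h7 h8
    exact ⟨h7, fun h9 => (h8 h9).1⟩)
  refine ⟨h1, h2.trans (prod_congr rfl fun i _ => ?_)⟩
  rw [hwJ_coeff]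
  -- the unique term
  set κ₀ : J → (V →₀ ℕ) → ℕ := fun a v => if v ∈ S a then q * Z.n i a v else 0 with hκ₀
  have hκS : ∀ a, ∀ v ∈ S a, κ₀ a v = q * Z.n i a v := fun a v hv => if_pos hv
  have hsum : ∀ a, ∑ v ∈ S a, κ₀ a v = p - 1 := by
    intro a
    rw [sum_congr rfl (hκS a), ← mul_sum, Z.sum, hpq, Nat.add_sub_cancel, mul_comm]
  have hmem : κ₀ ∈ Fintype.piFinset fun a => piAntidiag (S a) (p - 1) := by
    rw [Fintype.mem_piFinset]
    intro a
    rw [mem_piAntidiag]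
    refine ⟨hsum a, fun v hv => ?_⟩
    by_contra h
    exact hv (if_neg h)
  have hcond : w i + ∑ a, ∑ v ∈ S a, κ₀ a v • v = p • w i ∧
      ∑ a, ∑ v ∈ S a, κ₀ a v * g a v = q * Z.G i := by
    constructor
    · have h3 : ∑ a, ∑ v ∈ S a, κ₀ a v • v = q • ∑ a, ∑ v ∈ S a, Z.n i a v • v := by
        rw [smul_sum]
        refine sum_congr rfl fun a _ => ?_
        rw [smul_sum]
        exact sum_congr rfl fun v hv => by rw [hκS a v hv, mul_smul]
      rw [h3, Z.bary, hpq, add_smul, one_smul, mul_comm N q, mul_smul, add_comm]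
    · unfold Cells.G
      rw [mul_sum]
      refine sum_congr rfl fun a _ => ?_
      rw [mul_sum]
      exact sum_congr rfl fun v hv => by rw [hκS a v hv, mul_assoc]
  rw [sum_eq_single κ₀, if_pos hcond]
  · refine prod_congr rfl fun a _ => ?_
    congr 1
    · congr 1
      unfold Nat.multinomial
      rw [sum_congr rfl (hκS a), prod_congr rfl fun v hv => by rw [hκS a v hv]]
    · exact prod_congr rfl fun v hv => by rw [hκS a v hv]
  · intro κ hκ hne
    refine if_neg fun h => hne ?_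
    obtain ⟨-, h8⟩ := Z.key hN hw' p q hpq i i κ
      (fun a => (mem_piAntidiag.mp (Fintype.mem_piFinset.mp hκ a)).1) h.1
    rw [h.2] at h8
    obtain ⟨-, h9⟩ := h8 (by rw [hpq]; ring)
    funext a v
    by_cases hv : v ∈ S a
    · rw [h9 a v hv, hκS a v hv]
    · have h10 : κ a v = 0 := by
        by_contra h10
        exact hv ((mem_piAntidiag.mp (Fintype.mem_piFinset.mp hκ a)).2 v h10)
      rw [h10]
      exact (if_neg hv).symm
  · intro h
    exact absurd hmem h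

omit [Fintype J] [Fintype I] [DecidableEq I] in
lemma multinomial_ne {k : Type*} [Field k] {p : ℕ} [Fact p.Prime] [CharP k p] {β : Type*}
    (S : Finset β) (κ : β → ℕ) (hκ : ∑ v ∈ S, κ v = p - 1) :
    ((Nat.multinomial S κ : ℕ) : k) ≠ 0 := by
  have hp := (Fact.out : p.Prime)
  intro h
  rw [CharP.cast_eq_zero_iff k p] at h
  have h1 := Nat.multinomial_spec S κ
  rw [hκ] at h1
  have h2 : p ∣ (p - 1).factorial := by
    rw [← h1]
    exact dvd_mul_of_dvd_right h _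
  rw [hp.dvd_factorial] at h2
  have := hp.two_le
  omega

end main

end Pool.Agent.Q267.TR
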