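import Pool.Agent.Q267.TR.Main

/-!
# Polynomials with free coefficients at all exponents of the Hasse-Witt matrix
-/

set_option autoImplicit false

open Finset MvPolynomial

namespace Pool.Agent.Q267.TR

variable {V : Type*} [Fintype V] {I : Type*} [Fintype I] [DecidableEq I]

/-- The scalar product with `2 w`. -/
noncomputable def sp2 (w : V →₀ ℕ) : (V →₀ ℕ) →+ ℚ where
  toFun v := ∑ x, 2 * (w x : ℚ) * v x
  map_zero' := by simp
  map_add' a b := by
    rw [← sum_add_distrib]
    refine sum_congr rfl fun x _ => ?_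
    rw [Finsupp.add_apply]
    push_cast
    ring

/-- The square of the length. -/
def sq (w : V →₀ ℕ) : ℤ := ∑ x, (w x : ℤ) ^ 2

lemma sq_sub (v w : V →₀ ℕ) :
    ((sq v : ℤ) : ℚ) - sp2 w v + sq w = ∑ x, ((v x : ℚ) - w x) ^ 2 := by
  unfold sq sp2
  push_cast
  rw [AddMonoidHom.coe_mk, ZeroHom.coe_mk, ← sum_sub_distrib, ← sum_add_distrib]
  exact sum_congr rfl fun x _ => by ring

lemma sq_sub_eq (v w : V →₀ ℕ) (h : ∑ x, ((v x : ℚ) - w x) ^ 2 = 0) : v = w := by
  rw [sum_eq_zero_iff_of_nonneg fun x _ => sq_nonneg _] at h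
  ext x
  have h1 := pow_eq_zero_iff (two_ne_zero) |>.1 (h x (mem_univ x))
  have h2 : (v x : ℚ) = w x := by linarith
  exact_mod_cast h2

theorem allFree {𝕜 : Type*} [Field 𝕜] [CharZero 𝕜] (k₀ : IntermediateField ℚ 𝕜)
    (A : Subalgebra ℤ 𝕜) (hA : A.FG) (f : MvPolynomial V A) (w : I → V →₀ ℕ)
    (hw' : Function.Injective w)
    (hU : AlgebraicIndependent k₀ (fun i => ((coeff (w i) f : A) : 𝕜)))
    (hk : ∀ v, (∀ i, w i ≠ v) → ((coeff v f : A) : 𝕜) ∈ k₀) (c₀ : A) (hc₀ : c₀ ≠ 0) :
    ∃ n₀ : ℕ, ∀ p : ℕ, n₀ ≤ p → p.Prime →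
      ∃ M : Ideal A, M.IsMaximal ∧ (p : A) ∈ M ∧ c₀ ∉ M ∧
        (hwJ p w fun _ : Unit => map (Ideal.Quotient.mk M) f).det ≠ 0 := by
  classical
  -- the bound
  obtain ⟨C₀, hC₀⟩ : ∃ C₀ : ℕ, ∀ i, ∀ v ∈ f.support, sp2 (w i) v < C₀ := by
    obtain ⟨C₀, hC₀⟩ := exists_nat_gt (∑ i, ∑ v ∈ f.support, |sp2 (w i) v|)
    refine ⟨C₀, fun i v hv => lt_of_le_of_lt ?_ hC₀⟩
    exact (le_abs_self _).trans ((single_le_sum (f := fun v => |sp2 (w i) v|)
      (fun _ _ => abs_nonneg _) hv).trans (single_le_sum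
        (f := fun i => ∑ v ∈ f.support, |sp2 (w i) v|)
        (fun _ _ => sum_nonneg fun _ _ => abs_nonneg _) (mem_univ i)))
  obtain ⟨U, hUw⟩ : ∃ U : Finset (V →₀ ℕ), U = univ.image w := ⟨_, rfl⟩
  have hUmem : ∀ v, v ∈ U ↔ ∃ i, w i = v := by
    intro v
    rw [hUw, mem_image]
    exact ⟨fun ⟨i, _, h⟩ => ⟨i, h⟩, fun ⟨i, h⟩ => ⟨i, mem_univ i, h⟩⟩
  let e : (Σ _ : Unit, {v // v ∈ U}) → I := fun s => ((hUmem _).1 s.2.2).choose
  have he : ∀ s, w (e s) = s.2.1 := fun s => ((hUmem _).1 s.2.2).choose_spec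
  have heinj : Function.Injective e := by
    rintro ⟨⟨⟩, s⟩ ⟨⟨⟩, s'⟩ h
    have h1 : s.1 = s'.1 := by
      have h2 := he ⟨(), s⟩
      have h3 := he ⟨(), s'⟩
      simp only at h2 h3
      rw [← h2, ← h3]
      exact congrArg w h
    have h4 : s = s' := Subtype.ext h1
    rw [h4]
  have hU' := hU.comp e heinj
  have hfun : (fun s : Σ _ : Unit, {v // v ∈ U} => ((coeff s.2.1 f : A) : 𝕜)) =
      (fun i => ((coeff (w i) f : A) : 𝕜)) ∘ e := by
    funext s
    rw [Function.comp_apply, he s]
  obtain ⟨n₀, hn₀⟩ := free (J := Unit) k₀ A hA (fun _ => f) (fun _ => U) (by rw [hfun]; exact hU')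
    (by
      intro _ v hv
      exact hk v fun i hi => hv ((hUmem v).2 ⟨i, hi⟩))
    (fun _ v => if v ∈ U then sq v - C₀ else 0) (fun _ v hv => if_neg hv) 1 one_pos w hw' (by
      intro i
      have hwi : w i ∈ U := (hUmem _).2 ⟨i, rfl⟩
      have hwf : w i ∈ f.support := by
        rw [mem_support_iff]
        intro h0
        have h1 := hU.ne_zero i
        rw [h0] at h1
        exact h1 rfl
      refine ⟨fun _ => -(C₀ : ℚ) - sq (w i), sp2 (w i), fun _ v => if v = w i then 1 else 0,
        ?_, ?_, ?_, ?_⟩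
      · intro _ v hv
        dsimp only at hv ⊢
        have h1 := sq_sub v (w i)
        have h2 : 0 ≤ ∑ x, ((v x : ℚ) - w i x) ^ 2 := sum_nonneg fun x _ => sq_nonneg _
        have h3 := hC₀ i v hv
        by_cases hvU : v ∈ U
        · rw [if_pos hvU]
          push_cast
          refine ⟨by linarith, ?_⟩
          by_cases hvw : v = w i
          · rw [if_pos hvw]
            refine ⟨fun _ => ?_, fun _ => one_ne_zero⟩
            have h4 : ∑ x, ((v x : ℚ) - w i x) ^ 2 = 0 := by
              rw [hvw]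
              simp
            linarith
          · rw [if_neg hvw]
            refine ⟨fun h => absurd rfl h, fun h => absurd (sq_sub_eq v (w i) ?_) hvw⟩
            linarith
        · rw [if_neg hvU]
          have hvw : v ≠ w i := fun h => hvU (h ▸ hwi)
          rw [if_neg hvw]
          have h5 : (0 : ℚ) ≤ sq (w i) := by
            unfold sq
            push_cast
            exact sum_nonneg fun x _ => sq_nonneg _
          push_cast
          exact ⟨by linarith, fun h => absurd rfl h, fun h => by linarith⟩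
      · intro _
        dsimp only
        rw [sum_ite_eq', if_pos hwf]
      · rw [Fintype.sum_unique, sum_eq_single (w i)]
        · dsimp only
          rw [if_pos rfl]
        · intro v _ hv
          dsimp only
          rw [if_neg hv, zero_smul]
        · intro h
          exact absurd hwf h
      · intro c hc h0 _ j v hv
        by_cases hvw : v = w i
        · have h1 := h0 j
          rw [sum_eq_single (w i)] at h1
          · rw [hvw]
            exact h1
          · intro v hv hne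
            exact hc j v hv (if_neg hne)
          · intro h
            exact absurd hwf h
        · exact hc j v hv (if_neg hvw)) c₀ hc₀
  exact ⟨n₀, fun p hp hpp => hn₀ p hp hpp (Nat.modEq_one)⟩

end Pool.Agent.Q267.TR
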