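import Pool.Agent.Q267.TR.Abs

/-!
# One degenerate point suffices
-/

set_option autoImplicit false

open Finset MvPolynomial

namespace Pool.Agent.Q267.TR

variable {V J : Type*} [Fintype J]

/-- The exponent `w` is in the interior of a mixed cell which is a simplex of the Cayley
configuration; `n j v / N` are its barycentric coordinates. -/
def Cell (S : J → Finset (V →₀ ℕ)) (h : J → (V →₀ ℕ) → ℤ) (N : ℕ) (w : V →₀ ℕ) : Prop :=
  ∃ (l₀ : J → ℚ) (l : (V →₀ ℕ) →+ ℚ) (n : J → (V →₀ ℕ) → ℕ),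
    (∀ j, ∀ v ∈ S j, l₀ j + l v ≤ h j v ∧ (n j v ≠ 0 ↔ l₀ j + l v = h j v)) ∧
    (∀ j, ∑ v ∈ S j, n j v = N) ∧ ∑ j, ∑ v ∈ S j, n j v • v = N • w ∧
    ∀ c : J → (V →₀ ℕ) → ℤ, (∀ j, ∀ v ∈ S j, n j v = 0 → c j v = 0) →
      (∀ j, ∑ v ∈ S j, c j v = 0) → (∀ x, ∑ j, ∑ v ∈ S j, c j v * (v x : ℤ) = 0) →
      ∀ j, ∀ v ∈ S j, c j v = 0

/-- A ring homomorphism as a homomorphism of `ℤ`-algebras, for all structures of algebras. -/
def toInt {A B : Type*} [Ring A] [Ring B] [Algebra ℤ A] [Algebra ℤ B] (f : A →+* B) :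
    A →ₐ[ℤ] B :=
  { f with
    commutes' := fun r => by
      change f (algebraMap ℤ A r) = algebraMap ℤ B r
      rw [eq_intCast, eq_intCast, map_intCast] }

lemma finiteType_int {A : Type*} [Ring A] [Algebra ℤ A] (B : Subalgebra ℤ A) (hB : B.FG) :
    @Algebra.FiniteType ℤ B _ _ (Ring.toIntAlgebra B) := by
  have h1 : Algebra.FiniteType ℤ B := (Subalgebra.fg_iff_finiteType _).mp hB
  have h2 : (Ring.toIntAlgebra B) = (inferInstance : Algebra ℤ B) :=
    Algebra.algebra_ext _ _ fun r => by rw [eq_intCast, eq_intCast]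
  rw [h2]
  exact h1

lemma finiteType_mv {σ : Type*} [Finite σ] (A₀ : Type*) [CommRing A₀]
    [Algebra.FiniteType ℤ A₀] :
    @Algebra.FiniteType ℤ (MvPolynomial σ A₀) _ _ (Ring.toIntAlgebra _) := by
  have h1 : Algebra.FiniteType A₀ (MvPolynomial σ A₀) := inferInstance
  exact Algebra.FiniteType.trans (S := A₀) inferInstance h1

section order

variable {K : Type*} [Field K]

lemma exists_shift (F : J → MvPolynomial V (LaurentSeries K)) :
    ∃ H : ℕ, ∀ j, ∀ v ∈ (F j).support, 0 ≤ (coeff v (F j)).order + H := by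
  refine ⟨∑ j, ∑ v ∈ (F j).support, (coeff v (F j)).order.natAbs, fun j v hv => ?_⟩
  have h1 : (coeff v (F j)).order.natAbs ≤
      ∑ j, ∑ v ∈ (F j).support, (coeff v (F j)).order.natAbs :=
    (single_le_sum (f := fun v => (coeff v (F j)).order.natAbs) (fun _ _ => Nat.zero_le _)
      hv).trans (single_le_sum (f := fun j => ∑ v ∈ (F j).support, (coeff v (F j)).order.natAbs)
        (fun _ _ => Nat.zero_le _) (mem_univ j))
  have h2 : (((coeff v (F j)).order.natAbs : ℕ) : ℤ) ≤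
      ((∑ j, ∑ v ∈ (F j).support, (coeff v (F j)).order.natAbs : ℕ) : ℤ) := by exact_mod_cast h1
  have h3 := neg_abs_le (coeff v (F j)).order
  rw [Int.natCast_natAbs] at h2
  linarith

/-- The shifted orders. -/
noncomputable def gg (F : J → MvPolynomial V (LaurentSeries K)) (H : ℕ) (j : J) (v : V →₀ ℕ) :
    ℕ := ((coeff v (F j)).order + H).toNat

lemma exists_cells {I : Type*} (F : J → MvPolynomial V (LaurentSeries K)) (N : ℕ)
    (w : I → V →₀ ℕ)
    (hC : ∀ i, Cell (fun j => (F j).support) (fun j v => (coeff v (F j)).order) N (w i))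
    (H : ℕ) (hH : ∀ j, ∀ v ∈ (F j).support, 0 ≤ (coeff v (F j)).order + H) :
    Nonempty (Cells (fun j => (F j).support) (gg F H) N w) := by
  choose l₀ l n h1 h2 h3 h4 using hC
  have hg : ∀ j, ∀ v ∈ (F j).support, ((gg F H j v : ℕ) : ℚ) = (coeff v (F j)).order + H := by
    intro j v hv
    have h6 : ((gg F H j v : ℕ) : ℤ) = (coeff v (F j)).order + H :=
      Int.toNat_of_nonneg (hH j v hv)
    have h7 : (((gg F H j v : ℕ) : ℤ) : ℚ) = (((coeff v (F j)).order + H : ℤ) : ℚ) := by rw [h6]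
    push_cast at h7
    exact h7
  refine ⟨⟨fun i j => l₀ i j + H, l, n, ?_, ?_, h2, h3, h4⟩⟩
  · intro i j v hv
    rw [hg j v hv]
    have := (h1 i j v hv).1
    linarith
  · intro i j v hv
    rw [hg j v hv, (h1 i j v hv).2]
    constructor
    · intro h
      linarith
    · intro h
      linarith

omit [Fintype J] in
/-- The coefficients in terms of the power series parts. -/
lemma laurent_eq (F : J → MvPolynomial V (LaurentSeries K)) (H : ℕ)
    (hH : ∀ j, ∀ v ∈ (F j).support, 0 ≤ (coeff v (F j)).order + H) (j : J) (v : V →₀ ℕ)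
    (hv : v ∈ (F j).support) :
    HahnSeries.ofPowerSeries ℤ K
        ((coeff v (F j)).powerSeriesPart * PowerSeries.X ^ gg F H j v) =
      HahnSeries.ofPowerSeries ℤ K PowerSeries.X ^ H * coeff v (F j) := by
  have h6 : ((gg F H j v : ℕ) : ℤ) = (coeff v (F j)).order + H := Int.toNat_of_nonneg (hH j v hv)
  have h7 : gg F H j v • (1 : ℤ) + -(coeff v (F j)).order = H • (1 : ℤ) := by
    rw [nsmul_eq_mul, nsmul_eq_mul, mul_one, mul_one, h6]
    ring
  rw [map_mul, map_pow, LaurentSeries.ofPowerSeries_powerSeriesPart, HahnSeries.ofPowerSeries_X,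
    HahnSeries.single_pow, HahnSeries.single_pow, one_pow, one_pow, mul_comm,
    ← mul_assoc, HahnSeries.single_mul_single, one_mul, h7]

omit [Fintype J] in
lemma constantCoeff_ne (F : J → MvPolynomial V (LaurentSeries K)) (j : J) (v : V →₀ ℕ)
    (hv : v ∈ (F j).support) : PowerSeries.constantCoeff (coeff v (F j)).powerSeriesPart ≠ 0 := by
  rw [← PowerSeries.coeff_zero_eq_constantCoeff_apply, LaurentSeries.powerSeriesPart_coeff]
  rw [mem_support_iff] at hv
  simpa using HahnSeries.coeff_order_eq_zero.not.mpr hv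

end order

section glob

variable {I : Type*} [Fintype I] [DecidableEq I]

/-- The prime ideals of the ring of the coefficients. -/
theorem primes {A' : Type*} [CommRing A'] [Algebra.FiniteType ℤ A'] (f : J → MvPolynomial V A')
    {K : Type*} [Field K] [CharZero K]
    (θ : A' →+* LaurentSeries K) (N : ℕ) (hN : 0 < N) (w : I → V →₀ ℕ)
    (hw' : Function.Injective w)
    (hC : ∀ i, Cell (fun j => (map θ (f j)).support) (fun j v => (coeff v (map θ (f j))).order)
      N (w i)) :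
    ∃ n₀ : ℕ, ∀ p : ℕ, n₀ ≤ p → p.Prime → p ≡ 1 [MOD N] →
      ∃ P : Ideal A', P.IsPrime ∧ (p : A') ∈ P ∧ (hwJ p w f).det ∉ P := by
  classical
  obtain ⟨F, hF⟩ : ∃ F : J → MvPolynomial V (LaurentSeries K), ∀ j, F j = map θ (f j) :=
    ⟨_, fun _ => rfl⟩
  simp only [← hF] at hC
  obtain ⟨H, hH⟩ := exists_shift F
  obtain ⟨Z⟩ := exists_cells F N w hC H hH
  -- the ring `B`
  obtain ⟨B, hBfg, hXB, hbB⟩ : ∃ B : Subalgebra ℤ (PowerSeries K), B.FG ∧ PowerSeries.X ∈ B ∧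
      ∀ j, ∀ v ∈ (F j).support, (coeff v (F j)).powerSeriesPart ∈ B := by
    refine ⟨Algebra.adjoin ℤ ((insert PowerSeries.X (univ.biUnion fun j => (F j).support.image
      fun v => (coeff v (F j)).powerSeriesPart) : Finset (PowerSeries K)) : Set (PowerSeries K)),
      ⟨_, rfl⟩, Algebra.subset_adjoin (by simp), fun j v hv => Algebra.subset_adjoin ?_⟩
    rw [mem_coe, mem_insert, mem_biUnion]
    exact Or.inr ⟨j, mem_univ j, mem_image_of_mem _ hv⟩
  have hfB := finiteType_int B hBfg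
  -- the ring `R₀`
  obtain ⟨R₀, hR₀⟩ : ∃ R₀ : Subalgebra ℤ K,
      R₀ = B.map (toInt (PowerSeries.constantCoeff (R := K))) := ⟨_, rfl⟩
  have hR₀fg : R₀.FG := by
    rw [hR₀]
    exact hBfg.map _
  have hfR₀ := finiteType_int R₀ hR₀fg
  have hφ : ∀ x : B, PowerSeries.constantCoeff (R := K) x ∈ R₀ := by
    intro x
    rw [hR₀]
    exact ⟨x.1, x.2, rfl⟩
  obtain ⟨φ, hφ'⟩ : ∃ φ : B →+* R₀, ∀ x : B, (φ x : K) = PowerSeries.constantCoeff (R := K) x :=
    ⟨((PowerSeries.constantCoeff (R := K)).comp B.val.toRingHom).codRestrict R₀ hφ, fun _ => rfl⟩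
  have hB0 : CharZero B := φ.charZero
  -- the ring `C`
  obtain ⟨τ, hτ⟩ : ∃ τ : LaurentSeries K, τ = HahnSeries.ofPowerSeries ℤ K PowerSeries.X := ⟨_, rfl⟩
  have hτ0 : τ ≠ 0 := by
    intro h
    have h1 : HahnSeries.ofPowerSeries ℤ K PowerSeries.X = HahnSeries.ofPowerSeries ℤ K 0 := by
      rw [map_zero, ← hτ]
      exact h
    exact PowerSeries.X_ne_zero (HahnSeries.ofPowerSeries_injective h1)
  obtain ⟨Cc, hCfg, hBC, hτC, hθC⟩ : ∃ Cc : Subalgebra ℤ (LaurentSeries K), Cc.FG ∧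
      (∀ x : B, HahnSeries.ofPowerSeries ℤ K x ∈ Cc) ∧ τ⁻¹ ∈ Cc ∧ ∀ x : A', θ x ∈ Cc := by
    refine ⟨B.map (toInt (HahnSeries.ofPowerSeries ℤ K)) ⊔ Algebra.adjoin ℤ {τ⁻¹} ⊔
      (⊤ : Subalgebra ℤ A').map (toInt θ), ?_, ?_, ?_, ?_⟩
    · refine ((hBfg.map _).sup ?_).sup ?_
      · exact ⟨{τ⁻¹}, by rw [coe_singleton]⟩
      · exact (Algebra.FiniteType.out (R := ℤ) (A := A')).map _
    · intro x
      exact (le_sup_left.trans le_sup_left : B.map (toInt (HahnSeries.ofPowerSeries ℤ K)) ≤ _)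
        ⟨x.1, x.2, rfl⟩
    · exact (le_sup_right.trans le_sup_left : Algebra.adjoin ℤ {τ⁻¹} ≤ _)
        (Algebra.subset_adjoin rfl)
    · intro x
      exact (le_sup_right : (⊤ : Subalgebra ℤ A').map (toInt θ) ≤ _) ⟨x, trivial, rfl⟩
  have hfC := finiteType_int Cc hCfg
  obtain ⟨ι, hι⟩ : ∃ ι : B →+* Cc, ∀ x : B, (ι x : LaurentSeries K) =
      HahnSeries.ofPowerSeries ℤ K x :=
    ⟨((HahnSeries.ofPowerSeries ℤ K).comp B.val.toRingHom).codRestrict Cc hBC, fun _ => rfl⟩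
  have hιinj : Function.Injective ι := by
    intro x y h
    have h1 := congrArg Subtype.val h
    rw [hι, hι] at h1
    exact Subtype.ext (HahnSeries.ofPowerSeries_injective h1)
  obtain ⟨b, hb⟩ : ∃ b : J → (V →₀ ℕ) → B, ∀ j, ∀ v ∈ (F j).support,
      (b j v : PowerSeries K) = (coeff v (F j)).powerSeriesPart := by
    refine ⟨fun j v => if hv : v ∈ (F j).support then ⟨_, hbB j v hv⟩ else 0, fun j v hv => ?_⟩
    simp only [dif_pos hv]
  refine abs Z hN hw' (⟨PowerSeries.X, hXB⟩ : B) b φ ?_ ?_ ι hιinj ?_ (θ.codRestrict Cc hθC) f H ?_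
  · apply Subtype.ext
    rw [hφ']
    exact PowerSeries.constantCoeff_X
  · intro j v hv h
    apply constantCoeff_ne F j v hv
    rw [← hb j v hv, ← hφ', h]
    rfl
  · refine IsUnit.of_mul_eq_one ⟨τ⁻¹, hτC⟩ ?_
    apply Subtype.ext
    rw [MulMemClass.coe_mul, hι, ← hτ]
    exact mul_inv_cancel₀ hτ0
  · intro j
    apply MvPolynomial.map_injective (Cc.val.toRingHom) Subtype.val_injective
    have h1 : map Cc.val.toRingHom (map (θ.codRestrict Cc hθC) (f j)) = F j := by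
      rw [MvPolynomial.map_map, hF]
      congr 1
    rw [map_mul, h1, map_C, map_sum, map_sum]
    conv_rhs => rw [(F j).as_sum]
    rw [mul_sum]
    refine sum_congr rfl fun v hv => ?_
    rw [map_monomial, map_monomial, C_mul_monomial]
    congr 1
    have h2 : Cc.val.toRingHom (ι (b j v * ⟨PowerSeries.X, hXB⟩ ^ gg F H j v)) =
        HahnSeries.ofPowerSeries ℤ K ((coeff v (F j)).powerSeriesPart *
          PowerSeries.X ^ gg F H j v) := by
      rw [← hb j v hv]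
      exact hι _
    have h4 : Cc.val.toRingHom (ι ⟨PowerSeries.X, hXB⟩ ^ H) =
        HahnSeries.ofPowerSeries ℤ K PowerSeries.X ^ H := by
      rw [map_pow]
      congr 1
      exact hι _
    rw [h2, h4]
    exact laurent_eq F H hH j v hv

/-- **One degenerate point suffices.** -/
theorem glob {𝕜 : Type*} [Field 𝕜] [CharZero 𝕜] (A' A : Subalgebra ℤ 𝕜) (hA' : A'.FG)
    (hA : A.FG) (hle : A' ≤ A) (f : J → MvPolynomial V A') {K : Type*} [Field K] [CharZero K]
    (θ : A' →+* LaurentSeries K) (N : ℕ) (hN : 0 < N) (w : I → V →₀ ℕ)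
    (hw' : Function.Injective w)
    (hC : ∀ i, Cell (fun j => (map θ (f j)).support) (fun j v => (coeff v (map θ (f j))).order)
      N (w i)) (c₀ : A) (hc₀ : c₀ ≠ 0) :
    ∃ n₀ : ℕ, ∀ p : ℕ, n₀ ≤ p → p.Prime → p ≡ 1 [MOD N] →
      ∃ M : Ideal A, M.IsMaximal ∧ (p : A) ∈ M ∧ c₀ ∉ M ∧
        (hwJ p w fun j => map ((Ideal.Quotient.mk M).comp
          (Subalgebra.inclusion hle).toRingHom) (f j)).det ≠ 0 := by
  have hfA' : Algebra.FiniteType ℤ A' := (Subalgebra.fg_iff_finiteType _).mp hA'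
  have hfA : Algebra.FiniteType ℤ A := (Subalgebra.fg_iff_finiteType _).mp hA
  obtain ⟨N₂, hN₂⟩ := primes f θ N hN w hw' hC
  obtain ⟨N₃, hN₃⟩ := lift_gen (Subalgebra.inclusion hle).toRingHom
    (Subalgebra.inclusion_injective hle) c₀ hc₀ {p | p ≡ 1 [MOD N]}
    (fun p => (hwJ p w f).det) N₂ fun p hpN hp hpp => hN₂ p hp hpp hpN
  refine ⟨N₃, fun p hp hpp hpN => ?_⟩
  obtain ⟨M, hM, hpM, hcM, hdM⟩ := hN₃ p hpN hp hpp
  refine ⟨M, hM, hpM, hcM, fun h => hdM ?_⟩
  rw [det_hwJ_map] at h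
  exact Ideal.Quotient.eq_zero_iff_mem.1 h

end glob

section free

variable {I : Type*} [Fintype I] [DecidableEq I]

/-- **Free coefficients.** -/
theorem free {𝕜 : Type*} [Field 𝕜] [CharZero 𝕜] (k₀ : IntermediateField ℚ 𝕜)
    (A : Subalgebra ℤ 𝕜) (hA : A.FG) (f : J → MvPolynomial V A) (U : J → Finset (V →₀ ℕ))
    (hU : AlgebraicIndependent k₀
      (fun s : Σ j, {v // v ∈ U j} => ((coeff s.2.1 (f s.1) : A) : 𝕜)))
    (hk : ∀ j v, v ∉ U j → ((coeff v (f j) : A) : 𝕜) ∈ k₀)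
    (h : J → (V →₀ ℕ) → ℤ) (hh : ∀ j v, v ∉ U j → h j v = 0) (N : ℕ) (hN : 0 < N)
    (w : I → V →₀ ℕ) (hw' : Function.Injective w)
    (hC : ∀ i, Cell (fun j => (f j).support) h N (w i)) (c₀ : A) (hc₀ : c₀ ≠ 0) :
    ∃ n₀ : ℕ, ∀ p : ℕ, n₀ ≤ p → p.Prime → p ≡ 1 [MOD N] →
      ∃ M : Ideal A, M.IsMaximal ∧ (p : A) ∈ M ∧ c₀ ∉ M ∧
        (hwJ p w fun j => map (Ideal.Quotient.mk M) (f j)).det ≠ 0 := by
  classical
  have hfA : Algebra.FiniteType ℤ A := (Subalgebra.fg_iff_finiteType _).mp hA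
  -- the ring of the other coefficients
  obtain ⟨A₀, hA₀, hle, hk₀, hmem⟩ : ∃ A₀ : Subalgebra ℤ 𝕜, A₀.FG ∧ A₀ ≤ A ∧
      (∀ x ∈ A₀, x ∈ k₀) ∧ ∀ j, ∀ v ∈ (f j).support, v ∉ U j → ((coeff v (f j) : A) : 𝕜) ∈ A₀ := by
    refine ⟨Algebra.adjoin ℤ ((univ.biUnion fun j => ((f j).support.filter fun v => v ∉ U j).image
      fun v => ((coeff v (f j) : A) : 𝕜) : Finset 𝕜) : Set 𝕜), ⟨_, rfl⟩, ?_, ?_, ?_⟩
    · refine Algebra.adjoin_le fun x hx => ?_
      rw [mem_coe, mem_biUnion] at hx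
      obtain ⟨j, _, hx⟩ := hx
      obtain ⟨v, _, rfl⟩ := mem_image.mp hx
      exact (coeff v (f j)).2
    · have h1 : Algebra.adjoin ℤ ((univ.biUnion fun j => ((f j).support.filter fun v =>
          v ∉ U j).image fun v => ((coeff v (f j) : A) : 𝕜) : Finset 𝕜) : Set 𝕜) ≤
          k₀.toSubalgebra.restrictScalars ℤ := by
        refine Algebra.adjoin_le fun x hx => ?_
        rw [mem_coe, mem_biUnion] at hx
        obtain ⟨j, _, hx⟩ := hx
        obtain ⟨v, hv, rfl⟩ := mem_image.mp hx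
        exact hk j v (mem_filter.mp hv).2
      exact fun x hx => h1 hx
    · intro j v hv hvU
      refine Algebra.subset_adjoin ?_
      rw [mem_coe, mem_biUnion]
      exact ⟨j, mem_univ j, mem_image.mpr ⟨v, mem_filter.mpr ⟨hv, hvU⟩, rfl⟩⟩
  have hfA₀ : Algebra.FiniteType ℤ A₀ := (Subalgebra.fg_iff_finiteType _).mp hA₀
  -- the polynomials over the polynomial ring
  let σ := Σ j, {v // v ∈ U j}
  let cf : ∀ (j : J) (v : V →₀ ℕ), MvPolynomial σ A₀ := fun j v =>
    if hv : v ∈ U j then X ⟨j, v, hv⟩ else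
      if hv' : v ∈ (f j).support then C ⟨_, hmem j v hv' hv⟩ else 0
  let f' : J → MvPolynomial V (MvPolynomial σ A₀) := fun j =>
    ∑ v ∈ (f j).support, monomial v (cf j v)
  have hf'c : ∀ j v, coeff v (f' j) = if v ∈ (f j).support then cf j v else 0 := by
    intro j v
    simp only [f', coeff_sum, coeff_monomial]
    rw [sum_ite_eq']
  -- the evaluation
  let ε : MvPolynomial σ A₀ →+* A := eval₂Hom (Subalgebra.inclusion hle).toRingHom
    fun s => coeff s.2.1 (f s.1)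
  have hεcf : ∀ j, ∀ v ∈ (f j).support, ε (cf j v) = coeff v (f j) := by
    intro j v hv
    by_cases hvU : v ∈ U j
    · simp only [cf, dif_pos hvU, ε]
      rw [eval₂Hom_X']
    · simp only [cf, dif_neg hvU, dif_pos hv, ε]
      rw [eval₂Hom_C]
      rfl
  have hεf : ∀ j, map ε (f' j) = f j := by
    intro j
    ext v
    rw [coeff_map, hf'c]
    by_cases hv : v ∈ (f j).support
    · rw [if_pos hv, hεcf j v hv]
    · rw [if_neg hv, map_zero, notMem_support_iff.mp hv]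
  have hε : Function.Injective ε := by
    let i₀ : A₀ →+* k₀ := (algebraMap A₀ 𝕜).codRestrict _ (fun x => hk₀ x.1 x.2)
    have hi₀ : Function.Injective i₀ := by
      intro x y hxy
      have := congrArg Subtype.val hxy
      exact Subtype.ext this
    have h2 : ∀ P : MvPolynomial σ A₀, ((ε P : A) : 𝕜) =
        aeval (fun s : σ => ((coeff s.2.1 (f s.1) : A) : 𝕜)) (map i₀ P) := by
      intro P
      have h3 : ((ε P : A) : 𝕜) = A.val.toRingHom (ε P) := rfl
      rw [h3, aeval_def, ← coe_eval₂Hom, eval₂Hom_map_hom]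
      simp only [ε]
      rw [map_eval₂Hom]
      rfl
    intro P Q hPQ
    have h3 := congrArg (fun x : A => (x : 𝕜)) hPQ
    simp only [h2] at h3
    exact map_injective i₀ hi₀ (hU h3)
  -- the Laurent series
  let i₁ : A₀ →+* k₀ := (algebraMap A₀ 𝕜).codRestrict _ (fun x => hk₀ x.1 x.2)
  have hi₁ : ∀ x, x ≠ 0 → i₁ x ≠ 0 := by
    intro x hx h0
    apply hx
    have h5 := congrArg Subtype.val h0
    exact Subtype.ext h5
  let θ : MvPolynomial σ A₀ →+* LaurentSeries k₀ :=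
    eval₂Hom ((HahnSeries.C : k₀ →+* LaurentSeries k₀).comp i₁)
      fun s => HahnSeries.single (h s.1 s.2.1) 1
  have hθcf : ∀ j, ∀ v ∈ (f j).support, θ (cf j v) ≠ 0 ∧ (θ (cf j v)).order = h j v := by
    intro j v hv
    by_cases hvU : v ∈ U j
    · have h1 : θ (cf j v) = HahnSeries.single (h j v) 1 := by
        simp only [cf, dif_pos hvU, θ]
        rw [eval₂Hom_X']
      rw [h1]
      exact ⟨HahnSeries.single_ne_zero one_ne_zero, HahnSeries.order_single one_ne_zero⟩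
    · have h1 : θ (cf j v) = HahnSeries.C (i₁ ⟨_, hmem j v hv hvU⟩) := by
        simp only [cf, dif_neg hvU, dif_pos hv, θ]
        rw [eval₂Hom_C]
        rfl
      have h2 : i₁ ⟨_, hmem j v hv hvU⟩ ≠ 0 := by
        refine hi₁ _ fun h0 => ?_
        rw [mem_support_iff] at hv
        have h5 := congrArg Subtype.val h0
        exact hv (Subtype.ext h5)
      rw [h1, hh j v hvU]
      exact ⟨HahnSeries.C_ne_zero h2, HahnSeries.order_C⟩
  have hcoef : ∀ j, ∀ v ∈ (f j).support, coeff v (map θ (f' j)) = θ (cf j v) := by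
    intro j v hv
    rw [coeff_map, hf'c, if_pos hv]
  have hsupp : ∀ j, (map θ (f' j)).support = (f j).support := by
    intro j
    ext v
    rw [mem_support_iff]
    by_cases hv : v ∈ (f j).support
    · rw [hcoef j v hv]
      exact ⟨fun _ => hv, fun _ => (hθcf j v hv).1⟩
    · rw [coeff_map, hf'c, if_neg hv, map_zero]
      exact ⟨fun h0 => absurd rfl h0, fun h0 => absurd h0 hv⟩
  have hfP := finiteType_mv (σ := σ) A₀
  obtain ⟨N₂, hN₂⟩ := primes f' θ N hN w hw' (by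
    intro i
    obtain ⟨l₀, l, n, h1, h2, h3, h4⟩ := hC i
    simp only [hsupp]
    refine ⟨l₀, l, n, ?_, h2, h3, h4⟩
    intro j v hv
    have h5 : (coeff v (map θ (f' j))).order = h j v := by rw [hcoef j v hv, (hθcf j v hv).2]
    simp only [h5]
    exact h1 j v hv)
  obtain ⟨N₃, hN₃⟩ := lift_gen ε hε c₀ hc₀ {p | p ≡ 1 [MOD N]}
    (fun p => (hwJ p w f').det) N₂ fun p hpN hp hpp => hN₂ p hp hpp hpN
  refine ⟨N₃, fun p hp hpp hpN => ?_⟩
  obtain ⟨M, hM, hpM, hcM, hdM⟩ := hN₃ p hpN hp hpp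
  refine ⟨M, hM, hpM, hcM, fun h => hdM ?_⟩
  rw [det_hwJ_map] at h
  rw [← det_hwJ_map]
  simp only [hεf]
  exact Ideal.Quotient.eq_zero_iff_mem.1 h

end free

end Pool.Agent.Q267.TR
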